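import Mathlib
import Pool.Agent.H837Z.NormalDefs
import Pool.Agent.H837Z.NormalMain

set_option autoImplicit false

namespace Pool.Agent.Results.MP_c40ba2_an.Normal

open Pool.Agent.H837Z.Normal

/-- For all real `α ≥ 1`, `β ≥ 1` the class `T(α, β)` is a normal family in the unit disc: every
sequence in it has a subsequence converging locally uniformly in the disc. -/
theorem result (α β : ℝ) (hα : 1 ≤ α) (hβ : 1 ≤ β) (φ : ℕ → ℂ → ℂ)
    (hφ : ∀ k, φ k ∈ classT α β) :
    ∃ (σ : ℕ → ℕ) (f : ℂ → ℂ), StrictMono σ ∧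
      TendstoLocallyUniformlyOn (fun k => φ (σ k)) f Filter.atTop (Metric.ball 0 1) :=
  normal hα hβ φ hφ

end Pool.Agent.Results.MP_c40ba2_an.Normal
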